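import Pool.Agent.H.MP_35cd17_co.F

set_option autoImplicit false
open Finset Filter Topology Pool.Agent.H.MP_35cd17_co

namespace Pool.Agent.Results.MP_35cd17_co.Equal

/-- The point `p(G,H) = (2e/n^2, hom(G,H)/n^v)`. -/
noncomputable def pt {v n : ℕ} (G : SimpleGraph (Fin v)) (H : SimpleGraph (Fin n)) : ℝ × ℝ :=
  (2 * (H.edgeSet.ncard : ℝ) / (n : ℝ) ^ 2, (Nat.card (G →g H) : ℝ) / (n : ℝ) ^ v)

/-- The profile `P(G)`. -/
def profile {v : ℕ} (G : SimpleGraph (Fin v)) : Set (ℝ × ℝ) :=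
  closure {z | ∃ n : ℕ, 0 < n ∧ ∃ H : SimpleGraph (Fin n), z = pt G H}

/-- Class sizes: `0 = R`, `1 = Y`, `2 = B`. -/
noncomputable def wT (β q : ℝ) : Fin 3 → ℝ :=
  ![1 - √(1 - β * (1 - q ^ 2)), √β * q, √(1 - β * (1 - q ^ 2)) - √β * q]

open Classical in
/-- The limit density `t(G, T(q))`. -/
noncomputable def tT {v : ℕ} (G : SimpleGraph (Fin v)) (β q : ℝ) : ℝ :=
  ∑ c : Fin v → Fin 3,
    if ∀ a b, G.Adj a b → ¬ (c a = 2 ∧ c b = 2) ∧ ¬ (c a = 1 ∧ c b = 2) ∧ ¬ (c a = 2 ∧ c b = 1)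
    then ∏ a, wT β q (c a) else 0

/-- `f_T(G, β)`. -/
noncomputable def fT {v : ℕ} (G : SimpleGraph (Fin v)) (β : ℝ) : ℝ :=
  sSup (tT G β '' Set.Icc 0 1)

theorem tT_eq {v : ℕ} (G : SimpleGraph (Fin v)) (β q : ℝ) :
    tT G β q = tt G A3 Finset.univ (wT β q) := by
  have h : ∀ x y : Fin 3, A3 x y ↔
      ¬ (x = 2 ∧ y = 2) ∧ ¬ (x = 1 ∧ y = 2) ∧ ¬ (x = 2 ∧ y = 1) := by
    unfold A3 A4; decide
  rw [tt_univ]
  unfold tT ind
  refine Finset.sum_congr rfl fun c _ => ?_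
  rw [ite_mul, one_mul, zero_mul]
  congr 1
  apply propext
  simp only [h, Finset.mem_univ, true_imp_iff]

theorem pt_eq {v n : ℕ} [Nonempty (Fin n)] (G : SimpleGraph (Fin v)) (H : SimpleGraph (Fin n)) :
    pt G H = (ee H.Adj (fun _ => mu (Fin n)), tt G H.Adj Finset.univ (fun _ => mu (Fin n))) := by
  classical
  unfold pt
  congr 1
  · rw [ee_dg]
    have h1 : ∀ x, dg H.Adj x = H.degree x := fun x => by
      unfold dg
      rw [Finset.sum_boole, ← SimpleGraph.card_neighborFinset_eq_degree,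
        SimpleGraph.neighborFinset_eq_filter]
    have h2 := H.sum_degrees_eq_twice_card_edges
    have h3 : (∑ x, (H.degree x : ℝ)) = 2 * H.edgeFinset.card := by exact_mod_cast h2
    simp only [h1]
    rw [h3, ← SimpleGraph.coe_edgeFinset, Set.ncard_coe_finset]
    unfold mu
    rw [Fintype.card_fin]
    ring
  · rw [tt_univ, ← Finset.sum_mul]
    have e : (G →g H) ≃ {φ : Fin v → Fin n //
        ∀ a ∈ Finset.univ, ∀ b ∈ Finset.univ, G.Adj a b → H.Adj (φ a) (φ b)} :=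
      { toFun := fun f => ⟨f, fun _ _ _ _ h => f.map_adj h⟩
        invFun := fun φ => ⟨φ.1, fun h => φ.2 _ (Finset.mem_univ _) _ (Finset.mem_univ _) h⟩
        left_inv := fun _ => rfl
        right_inv := fun _ => rfl }
    rw [Nat.card_congr e, Nat.card_eq_fintype_card, Fintype.card_subtype]
    unfold mu
    rw [Finset.prod_const, Finset.card_univ, Fintype.card_fin, Fintype.card_fin,
      div_eq_mul_inv, inv_pow, Finset.card_filter]
    push_cast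
    congr 1
    refine Finset.sum_congr rfl fun φ _ => ?_
    unfold ind
    congr 1

theorem param (u M N : ℝ) (hu : 0 ≤ u) (huM : u ≤ M) (hN : 0 ≤ N) (h1 : M + N = 1) :
    M ^ 2 + 2 * u * N ∈ Set.Icc (0 : ℝ) 1 ∧
      ∃ q ∈ Set.Icc (0 : ℝ) 1, wT (M ^ 2 + 2 * u * N) q = ![u, M - u, N] := by
  have hM : 0 ≤ M := hu.trans huM
  have p1 := mul_nonneg hu hN
  have p2 := mul_nonneg (sub_nonneg.mpr huM) hN
  refine ⟨⟨by positivity, by nlinarith⟩, ?_⟩
  set β := M ^ 2 + 2 * u * N with hβ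
  have hβ0 : 0 ≤ β := by positivity
  have p3 : M ≤ √β := Real.le_sqrt_of_sq_le (by linarith)
  have p4 : √β * ((M - u) / √β) = M - u := by
    rcases eq_or_lt_of_le (Real.sqrt_nonneg β) with h | h
    · rw [← h]; linarith
    · field_simp
  have p5 : β * ((M - u) / √β) ^ 2 = (M - u) ^ 2 := by
    conv_rhs => rw [← p4]
    rw [mul_pow, Real.sq_sqrt hβ0]
  have p6 : √(1 - β * (1 - ((M - u) / √β) ^ 2)) = 1 - u := by
    rw [show 1 - β * (1 - ((M - u) / √β) ^ 2) = (1 - u) ^ 2 by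
      rw [mul_sub, p5, hβ, show N = 1 - M by linarith]; ring]
    exact Real.sqrt_sq (by linarith)
  refine ⟨(M - u) / √β, ⟨div_nonneg (by linarith) (Real.sqrt_nonneg _),
    div_le_one_of_le₀ (by linarith) (Real.sqrt_nonneg _)⟩, ?_⟩
  unfold wT
  rw [p6, p4, show 1 - (1 - u) = u by ring, show 1 - u - (M - u) = N by linarith]

theorem wT_cont : Continuous fun z : ℝ × ℝ => wT z.1 z.2 := by
  unfold wT
  refine continuous_pi fun i => ?_
  fin_cases i <;> simp <;> fun_prop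

theorem tT_cont {v : ℕ} (G : SimpleGraph (Fin v)) :
    Continuous fun z : ℝ × ℝ => tT G z.1 z.2 := by
  simp only [tT_eq]
  exact (tt_cont G).comp wT_cont

theorem closedK (f : ℝ × ℝ → ℝ) (hf : Continuous f) :
    IsClosed {z : ℝ × ℝ | ∃ q : Set.Icc (0 : ℝ) 1, z.2 ≤ f (z.1, q)} := by
  have h1 : IsClosed {p : (ℝ × ℝ) × Set.Icc (0 : ℝ) 1 | p.1.2 ≤ f (p.1.1, p.2)} :=
    isClosed_le (by fun_prop) (by fun_prop)
  have h2 := isClosedMap_fst_of_compactSpace _ h1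
  convert h2 using 1
  ext z
  simp

theorem upper {v : ℕ} (G : SimpleGraph (Fin v)) (z : ℝ × ℝ) (hz : z ∈ profile G) :
    ∃ q : Set.Icc (0 : ℝ) 1, z.2 ≤ tT G z.1 q := by
  have hK : IsClosed {z : ℝ × ℝ | ∃ q : Set.Icc (0 : ℝ) 1, z.2 ≤ tT G z.1 q} :=
    closedK _ (tT_cont G)
  have : {z | ∃ n : ℕ, 0 < n ∧ ∃ H : SimpleGraph (Fin n), z = pt G H} ⊆
      {z : ℝ × ℝ | ∃ q : Set.Icc (0 : ℝ) 1, z.2 ≤ tT G z.1 q} := by
    rintro z ⟨n, hn, H, rfl⟩
    haveI : Nonempty (Fin n) := ⟨⟨0, hn⟩⟩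
    rw [← hK.closure_eq, Metric.mem_closure_iff]
    intro δ hδ
    obtain ⟨u, M, N, a1, a2, a3, a4, a5, a6⟩ := approx' G n H.Adj (fun _ _ h => h.symm)
      (δ / (5 + 2 * (v : ℝ) ^ 2)) (by positivity)
    obtain ⟨_, q, hq, hw⟩ := param u M N a1 a2 a3 a4
    rw [FF3, ← hw, ← tT_eq, Fintype.card_fin] at a6
    set ε := δ / (5 + 2 * (v : ℝ) ^ 2) with hε
    have e1 : ε * (5 + 2 * (v : ℝ) ^ 2) = δ := by rw [hε]; field_simp
    have e2 : 0 < ε := by positivity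
    have e3 : 0 ≤ (v : ℝ) ^ 2 * (2 * ε) := by positivity
    refine ⟨(M ^ 2 + 2 * u * N, (pt G H).2 - (ε + (v : ℝ) ^ 2 * (2 * ε))), ⟨⟨q, hq⟩, ?_⟩, ?_⟩
    · rw [pt_eq]
      show _ - _ ≤ tT G _ q
      linarith
    · rw [pt_eq, Prod.dist_eq, max_lt_iff, Real.dist_eq, Real.dist_eq, abs_sub_comm]
      refine ⟨lt_of_le_of_lt a5 (by nlinarith), ?_⟩
      rw [sub_sub_cancel, abs_of_nonneg (by positivity)]
      nlinarith
  exact closure_minimal this hK hz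

theorem lower {v : ℕ} (G : SimpleGraph (Fin v)) (β q : ℝ) (hβ : β ∈ Set.Icc (0 : ℝ) 1)
    (hq : q ∈ Set.Icc (0 : ℝ) 1) : (β, tT G β q) ∈ profile G := by
  set s := √(1 - β * (1 - q ^ 2)) with hs
  have q1 : q ^ 2 ≤ 1 := pow_le_one₀ hq.1 hq.2
  have q2 : 0 ≤ β * (1 - q ^ 2) := mul_nonneg hβ.1 (by linarith)
  have q3 : 0 ≤ β * q ^ 2 := mul_nonneg hβ.1 (sq_nonneg q)
  have q4 : 0 ≤ 1 - β * (1 - q ^ 2) := by linarith [hβ.2]
  have s1 : s ^ 2 = 1 - β * (1 - q ^ 2) := Real.sq_sqrt q4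
  have s2 : s ≤ 1 := Real.sqrt_le_one.mpr (by linarith)
  have y0 : 0 ≤ √β * q := mul_nonneg (Real.sqrt_nonneg _) hq.1
  have y1 : (√β * q) ^ 2 = β * q ^ 2 := by rw [mul_pow, Real.sq_sqrt hβ.1]
  have y2 : √β * q ≤ s := Real.le_sqrt_of_sq_le (by linarith [hβ.2])
  set r := 1 - s with hr
  set m := 1 - s + √β * q with hm
  have r0 : 0 ≤ r := by linarith
  have rm : r ≤ m := by linarith
  have m1 : m ≤ 1 := by linarith
  have hN : Tendsto (fun k : ℕ => ((k + 1 : ℕ) : ℝ)) atTop atTop :=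
    tendsto_natCast_atTop_atTop.comp (tendsto_add_atTop_nat 1)
  have t1 := (tendsto_nat_floor_mul_div_atTop r0).comp hN
  have t2 := (tendsto_nat_floor_mul_div_atTop (r0.trans rm)).comp hN
  have t3 : Tendsto (fun k : ℕ => 1 / ((k + 1 : ℕ) : ℝ)) atTop (𝓝 0) := by
    simp only [one_div]
    exact tendsto_inv_atTop_zero.comp hN
  set w : ℕ → Fin 3 → ℝ := fun k => ![(⌊r * (k + 1 : ℕ)⌋₊ : ℝ) / (k + 1 : ℕ),
    (⌊m * (k + 1 : ℕ)⌋₊ : ℝ) / (k + 1 : ℕ) - (⌊r * (k + 1 : ℕ)⌋₊ : ℝ) / (k + 1 : ℕ),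
    1 - (⌊m * (k + 1 : ℕ)⌋₊ : ℝ) / (k + 1 : ℕ)] with hw
  have t4 : Tendsto w atTop (𝓝 (wT β q)) := by
    refine tendsto_pi_nhds.mpr fun i => ?_
    fin_cases i
    · exact t1
    · have := t2.sub t1
      rw [show m - r = √β * q by linarith] at this
      exact this
    · have := t2.const_sub 1
      rw [show 1 - m = s - √β * q by linarith] at this
      exact this
  have hcl := fun k : ℕ => HH_close G (k + 1) ⌊r * (k + 1 : ℕ)⌋₊ ⌊m * (k + 1 : ℕ)⌋₊
    (Nat.floor_le_floor (mul_le_mul_of_nonneg_right rm (Nat.cast_nonneg _)))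
    (Nat.floor_le_of_le (mul_le_of_le_one_left (Nat.cast_nonneg _) m1))
  have t5 : Tendsto (fun k => ee A3 (w k)) atTop (𝓝 β) := by
    have hc : Continuous fun w : Fin 3 → ℝ => ee A3 w := by
      simp only [ee3]; fun_prop
    have := (hc.tendsto _).comp t4
    rw [show ee A3 (wT β q) = β by
      rw [ee3]
      show (1 - s + √β * q) ^ 2 + 2 * (1 - s) * (s - √β * q) = β
      linear_combination y1 - s1] at this
    exact this
  have t6 : Tendsto (fun k => tt G A3 Finset.univ (w k)) atTop (𝓝 (tT G β q)) := by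
    rw [tT_eq]
    exact ((tt_cont G).tendsto _).comp t4
  refine mem_closure_of_tendsto (b := atTop)
    (f := fun k : ℕ => pt G (HH (k + 1) ⌊r * (k + 1 : ℕ)⌋₊ ⌊m * (k + 1 : ℕ)⌋₊)) ?_
    (Eventually.of_forall fun k => ⟨k + 1, Nat.succ_pos k, _, rfl⟩)
  simp only [pt_eq]
  refine Tendsto.prodMk_nhds ?_ ?_
  · refine t5.congr_dist ?_
    refine squeeze_zero (fun _ => dist_nonneg) (fun k => ?_) t3
    rw [dist_comm, Real.dist_eq]
    exact (hcl k).1
  · refine t6.congr_dist ?_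
    have := t3.const_mul ((Fintype.card (Fin v) : ℝ) ^ 2)
    rw [mul_zero] at this
    refine squeeze_zero (fun _ => dist_nonneg) (fun k => ?_) this
    rw [dist_comm, Real.dist_eq]
    exact (hcl k).2

/-- For every graph `G` and every `β ∈ [0,1]` the maximum `f(G,β)` of the vertical section of the
profile exists and equals `f_T(G,β)`. -/
theorem result (v : ℕ) (G : SimpleGraph (Fin v)) (β : ℝ) (hβ : β ∈ Set.Icc (0 : ℝ) 1) :
    IsGreatest {y : ℝ | (β, y) ∈ profile G} (fT G β) := by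
  have hc : Continuous (tT G β) := 
    Continuous.comp (g := fun z : ℝ × ℝ => tT G z.1 z.2) (f := fun q : ℝ => (β, q)) (tT_cont G)
      (by fun_prop)
  have hK : IsCompact (tT G β '' Set.Icc 0 1) := isCompact_Icc.image hc
  constructor
  · obtain ⟨q, hq, h⟩ := hK.sSup_mem ⟨_, 0, ⟨le_rfl, zero_le_one⟩, rfl⟩
    show (β, fT G β) ∈ profile G
    unfold fT
    rw [← h]
    exact lower G β q hβ hq
  · intro y hy
    obtain ⟨q, h⟩ := upper G _ hy
    exact h.trans (le_csSup hK.bddAbove ⟨q, q.2, rfl⟩)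

end Pool.Agent.Results.MP_35cd17_co.Equal
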